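import Pool.Agent.H10.S6U.Uz2
import Pool.Agent.H72.S6B.Stm

/-!
# The U-step at `v = 0`: the hypotheses

`UhZ`: time, slopes of two samples of a line and window, activity of the velocities given the exact
point and the box, and the structure of the fans.
-/

set_option autoImplicit false

namespace Pool.S6B

open Finset Real
open Pool.Agent.H49.Ent Pool.Agent.H32.Dense Pool.STK Pool.KA Pool.KA.Win Pool.KA.TRC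
  Pool.KSAT Pool.K2S Pool.K2S.Rows Pool.K2S.FF Pool.PB Pool.S6K.Wfe Pool.UST Pool.S6U Pool.S6C

/-- The hypotheses of the U-step on a rectangle, `v = 0`. `X` is the block. -/
structure UhZ {J : ℕ} (F : Fam 3 J) (p : F.Ω → ℝ) (σ : Fin 3 → Fin 3) (wa wb : ℕ) (vp : ℕ → ℕ)
    (D : ℕ) (a : ℕ → F.Ω → ℝ) (s t al : F.Ω → ℝ) (κ X qa qb : ℕ) (x₁ η ϖ δ ε₁ ca K : ℝ) :
    Prop where
  tm : ((J : ℝ) - wa) * Real.log 2 - δ * X ≤ CH p F.T (slam F wa)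
  h6 : ∀ w, wa ≤ w → w ≤ wb → Pool.KAF.Pr (dbl p (slam F w))
    {v | |sl (vp w) D (a w) al v.1 - sl (vp w) D (a w) al v.2| < (2 : ℝ) ^ (-(x₁ * X))} ≤ ε₁
  act : ∀ w q r X' : ℕ, wa ≤ w → w ≤ wb → qa ≤ q → q < qb → η * X ≤ X' → r + X' ≤ X →
    ∀ E : F.Ω → Prop, ϖ ≤ Pe p E → ca * X' * Real.log 2 ≤
      CH (Pool.Agent.H49.Ent.cond p E True)
        (Uni.dg (r + X') (fun ω => F.md (cv (vp w) κ q) (frm σ (a w) s t) ω 0))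
        (fun ω => (Uni.dg r (fun ω => F.md (cv (vp w) κ q) (frm σ (a w) s t) ω 0) ω,
          (Fam.pt F ω, F.blb w (cv (vp w) κ q) (frm σ (a w) s t) ω)))
  str : ∀ w q : ℕ, wa ≤ w → w ≤ wb → qa ≤ q → q < qb →
    Str F p 0 1 w (cv (vp w) κ q) (frm σ (a w) s t) (sl (vp w) D (a w) al) (Fam.pt F) X K

/-- **(UHZ)** The hypotheses of the U-step in a class, `v = 0`; the block is `d`. -/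
def UhZStmt : Prop :=
  ∀ (x₁ η ϖ δ ε₁ γ α : ℝ) (d₀ : ℕ), 0 < x₁ → x₁ ≤ 1 → 0 < η → 0 < ϖ → 0 < δ → 0 < ε₁ → 0 < γ →
    0 < α →
  ∀ cw : ℝ, 0 < cw → ∃ κ₀ : ℝ, 0 < κ₀ ∧ ∀ κ : ℝ, 0 < κ → κ ≤ κ₀ →
  ∃ e₂ e₃ : ℝ, 0 < e₂ ∧ 0 < e₃ ∧ ∀ M : ℝ, 0 < M →
  ∀ (S : PCl 3) (a₁ R : ℝ) (i₀ : Fin 3) (rt act : ℚ → ℝ) (w₀ v₀ q₀ a₀ : ℝ),
    UCs S a₁ R i₀ rt act w₀ v₀ 0 q₀ a₀ α →
  ∃ L₀ : ℝ, 0 < L₀ ∧ ∀ L B C : ℝ, 0 < L → L ≤ L₀ → Clp S (fun J F A =>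
    ∀ (σ : Fin 3 → Fin 3) (wl wa wb : ℕ) (vp : ℕ → ℕ) (kap Hu HN : ℕ)
      (al nu kN nN : (Fin 3 → ℤ) × (ℕ × F.ζ) → ℝ) (a : ℕ → F.Ω → ℝ) (s t : F.Ω → ℝ),
      UFi F A σ wl wa wb vp kap Hu HN al nu kN nN a s t B C → σ 0 = i₀ →
    ∀ qa qb d D : ℕ, UeN J w₀ v₀ 0 q₀ L M cw κ e₂ γ 1 1 wa wb vp kap Hu HN qa qb d D →
    fri F (Pool.Agent.H49.Ent.cond F.p A True) σ s t qa (qb + d) ≤ e₃ * L * J →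
    0 < Pe F.p A ∧ d₀ ≤ d ∧ wb + d ≤ J ∧ (d : ℝ) ≤ γ * (wb + 1 - wa : ℕ) ∧
    (vp wb : ℝ) ≤ vp wa + γ * d ∧ vp wb + d ≤ D ∧
    UhZ F (Pool.Agent.H49.Ent.cond F.p A True) σ wa wb vp D a s t
        (fun ω => al (Fam.pt F ω)) kap d qa qb x₁ η ϖ δ ε₁ (α / 2) 4)

/-- **One family**: outside a small set of contexts the pair is full. -/
def UzStmt : Prop :=
  ∀ ε ca ρ : ℝ, 0 < ε → 0 < ca → 0 < ρ → ∃ (x₁ η ϖ δ ε₁ γ : ℝ) (d₀ : ℕ), 0 < x₁ ∧ x₁ ≤ 1 ∧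
    0 < η ∧ 0 < ϖ ∧ 0 < δ ∧ 0 < ε₁ ∧ 0 < γ ∧ γ ≤ 1 ∧
    ∀ (J : ℕ) (F : Fam 3 J) (p : F.Ω → ℝ) (σ : Fin 3 → Fin 3) (wa wb : ℕ) (vp : ℕ → ℕ) (D : ℕ)
      (a : ℕ → F.Ω → ℝ) (s t al : F.Ω → ℝ) (κ X qa qb : ℕ),
      Rc F p σ wa wb vp D a s t al → Det p (Fam.pt F) al → d₀ ≤ X → wa ≤ wb → qa ≤ qb →
      wb + X ≤ J → (X : ℝ) ≤ γ * (wb + 1 - wa : ℕ) → (X : ℝ) ≤ γ * (qb - qa : ℕ) →
      (vp wb : ℝ) ≤ vp wa + γ * X → vp wb + X ≤ D → ((D - vp wa : ℕ) : ℝ) ≤ γ * (qb - qa : ℕ) →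
      UhZ F p σ wa wb vp D a s t al κ X qa qb x₁ η ϖ δ ε₁ ca 4 →
      ∃ Bd : Finset (ℕ × ℕ), (Bd.card : ℝ) ≤ ρ * ((wb + 1 - wa : ℕ) * (qb - qa : ℕ)) ∧
        ∀ w q, wa ≤ w → w ≤ wb → qa ≤ q → q < qb → (w, q) ∉ Bd →
          UcP F p σ vp D a s t al κ X w q ε

end Pool.S6B
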