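import Pool.Agent.H36.S6.ActP

/-!
# Activity given the exact point and the context

The digits of the base velocity are active given the coarser digits, the exact point and the
context; the normal frame of the context need not be visible.
-/

set_option autoImplicit false

namespace Pool.S6B

open Finset Real
open Pool.Agent.H49.Ent Pool.Agent.H32.Dense Pool.STK Pool.KA Pool.KSAT Pool.K2S Pool.PB
  Pool.S6U Pool.S6C Pool.UST

section mi

variable {J : ℕ} {F : Fam 3 J} {p : F.Ω → ℝ} {T : Type}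

/-- The digits of the base velocity given the coarser digits, the exact point and a context `b`, if
`b` is visible given a label `Y`. -/
theorem CH_md_geZ (hp : IsLaw p) (σ : Fin 3 → Fin 3) (a s t : F.Ω → ℝ) (c : Fin 3 → ℕ) (r X : ℕ)
    {T' : Type} (b : F.Ω → T') (Y : F.Ω → T) {K : ℝ}
    (hb : CH p b (fun ω => (Y ω, Pool.K2S.ptq F (σ 0) (c 0) ω)) ≤ K) :
    CH p (fun ω => F.D (c 0 + r + X) ω (σ 0)) (fun ω => (F.D (c 0 + r) ω (σ 0), Fam.pt F ω)) -
      Pool.KVA.MI p (fun ω => F.D (c 0 + r + X) ω (σ 0)) Y (Pool.K2S.ptq F (σ 0) (c 0 + r)) - K ≤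
      CH p (Uni.dg (r + X) (fun ω => F.md c (fun ω => tfr σ (a ω) (s ω) (t ω)) ω 0))
        (fun ω => (Uni.dg r (fun ω => F.md c (fun ω => tfr σ (a ω) (s ω) (t ω)) ω 0) ω,
          (Fam.pt F ω, b ω))) := by
  have h0 := hp.nonneg
  have e1 : CH p (fun ω => F.D (c 0 + r + X) ω (σ 0))
      (fun ω => (F.D (c 0 + r) ω (σ 0), Fam.pt F ω)) =
      CH p (fun ω => F.D (c 0 + r + X) ω (σ 0)) (Pool.K2S.ptq F (σ 0) (c 0 + r)) := by
    refine CH_congr h0 (fun ω ω' _ _ hh => (Prod.ext_iff.mp hh).1)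
      (fun ω ω' _ _ hh => (Prod.ext_iff.mp hh).1) (fun ω ω' _ _ hh => ?_)
      (fun ω ω' _ _ hh => ?_)
    · exact Prod.ext (Prod.ext_iff.mp hh).2 (Prod.ext_iff.mp hh).1
    · exact Prod.ext (Prod.ext_iff.mp hh).2 (Prod.ext_iff.mp hh).1
  rw [e1, MI_eq_dl h0]
  unfold dl
  obtain ⟨W, hW⟩ : ∃ W, W = fun ω => (Y ω, Pool.K2S.ptq F (σ 0) (c 0 + r) ω) := ⟨_, rfl⟩
  have hb' : CH p b W ≤ K := by
    refine le_trans (CH_mono_cond h0 fun ω ω' _ _ hh => ?_) hb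
    rw [hW] at hh
    have h1 := Prod.ext_iff.mp hh
    have h2 := Prod.ext_iff.mp h1.2
    have h3 : Fam.pt F ω = Fam.pt F ω' := h2.1
    have h4 : F.D (c 0 + r) ω (σ 0) = F.D (c 0 + r) ω' (σ 0) := h2.2
    exact Prod.ext h1.1 (Prod.ext h3 (D_coarse (σ 0) (Nat.le_add_right _ _) h4))
  rw [← hW]
  obtain ⟨m, hm⟩ : ∃ m, m = fun n : ℕ => Uni.dg n (fun ω =>
    F.md c (fun ω => tfr σ (a ω) (s ω) (t ω)) ω 0) := ⟨_, rfl⟩
  have hm1 : Uni.dg (r + X) (fun ω => F.md c (fun ω => tfr σ (a ω) (s ω) (t ω)) ω 0) =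
    m (r + X) := by rw [hm]
  have hm2 : Uni.dg r (fun ω => F.md c (fun ω => tfr σ (a ω) (s ω) (t ω)) ω 0) = m r := by
    rw [hm]
  rw [hm1, hm2]
  have h1 := CH_le_add h0 (fun ω => F.D (c 0 + r + X) ω (σ 0)) b W
  have h2 : CH p (fun ω => F.D (c 0 + r + X) ω (σ 0)) (fun ω => (b ω, W ω)) ≤
      CH p (m (r + X)) (fun ω => (b ω, W ω)) := by
    refine CH_mono_left h0 fun ω ω' _ _ hh => ?_
    have g1 : m (r + X) ω = m (r + X) ω' := (Prod.ext_iff.mp hh).1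
    have g0 : W ω = W ω' := (Prod.ext_iff.mp (Prod.ext_iff.mp hh).2).2
    rw [hW] at g0
    have g2 : F.D (c 0 + r) ω (σ 0) = F.D (c 0 + r) ω' (σ 0) :=
      (Prod.ext_iff.mp (Prod.ext_iff.mp g0).2).2
    have g3 : F.D (c 0) ω (σ 0) = F.D (c 0) ω' (σ 0) :=
      D_coarse (σ 0) (Nat.le_add_right _ _) g2
    rw [hm] at g1
    simp only at g1
    rw [dg_md, dg_md, g3] at g1
    have g4 : F.D (c 0 + (r + X)) ω (σ 0) = F.D (c 0 + (r + X)) ω' (σ 0) := by linarith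
    show F.D (c 0 + r + X) ω (σ 0) = F.D (c 0 + r + X) ω' (σ 0)
    rw [add_assoc]
    exact g4
  have h3 : CH p (m (r + X)) (fun ω => (b ω, W ω)) ≤
      CH p (m (r + X)) (fun ω => (m r ω, (Fam.pt F ω, b ω))) := by
    refine CH_mono_cond h0 fun ω ω' _ _ hh => ?_
    have g1 := Prod.ext_iff.mp hh
    have g0 : W ω = W ω' := g1.2
    rw [hW] at g0
    have g2 := Prod.ext_iff.mp (Prod.ext_iff.mp g0).2
    have g3 : F.D (c 0 + r) ω (σ 0) = F.D (c 0 + r) ω' (σ 0) := g2.2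
    have g4 : F.D (c 0) ω (σ 0) = F.D (c 0) ω' (σ 0) :=
      D_coarse (σ 0) (Nat.le_add_right _ _) g3
    have g5 : m r ω = m r ω' := by
      rw [hm]
      show Uni.dg r (fun ω => F.md c (fun ω => tfr σ (a ω) (s ω) (t ω)) ω 0) ω =
        Uni.dg r (fun ω => F.md c (fun ω => tfr σ (a ω) (s ω) (t ω)) ω 0) ω'
      rw [dg_md, dg_md, g3, g4]
    exact Prod.ext g5 (Prod.ext g2.1 g1.1)
  linarith

end mi

/-- **Activity** given the exact point and the context, in a class. -/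
theorem actz : ∀ (S : PCl 3) (a₁ R : ℝ) (i₀ : Fin 3) (act : ℚ → ℝ),
    (∀ (τ : ℝ) (J : ℕ) (F : Fam 3 J) (A : F.Ω → Prop), S.St τ J F A → Fam.Stt F a₁ R τ A) →
    ActN S i₀ act → (∀ q q' : ℚ, 0 ≤ q → q ≤ q' → q' ≤ 1 → act q ≤ act q') →
    ∀ (q₁ q₂ ca η : ℝ), 0 ≤ q₁ → q₁ < q₂ → q₂ ≤ 1 → 0 < ca → 0 < η →
    ActG act q₁ q₂ ca (η / 16) → ∀ B C : ℝ,
    Clp S (fun J F A => ∀ (σ : Fin 3 → Fin 3) (wl wa wb : ℕ) (vp : ℕ → ℕ) (kap Hu HN : ℕ)
      (al nu : (Fin 3 → ℤ) × (ℕ × F.ζ) → ℝ) (k b : F.Ω → ℝ) (a : ℕ → F.Ω → ℝ) (s t : F.Ω → ℝ),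
      UFrP F A σ wl wa wb vp kap Hu HN al nu k b a s t B C → σ 0 = i₀ →
      ∀ w q r X' : ℕ, wa ≤ w → w ≤ wb → q₁ * J ≤ q → ((q + r : ℕ) : ℝ) + X' ≤ q₂ * J →
      Room (J := J) wb vp kap Hu HN q 0 → ∀ (qa qc : ℕ) (m : ℝ), qa ≤ q → q + r + X' ≤ qc →
      Pool.KVA.MI (Pool.Agent.H49.Ent.cond F.p A True) (fun ω => F.D qc ω (σ 0))
        (fun ω => (s ω, t ω)) (Pool.K2S.ptq F (σ 0) qa) ≤ m →
      (ca * X' - η * J) * Real.log 2 - m ≤ CH (Pool.Agent.H49.Ent.cond F.p A True)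
        (Uni.dg (r + X') (fun ω => F.md (cv (vp w) kap q) (frm σ (a w) s t) ω 0))
        (fun ω => (Uni.dg r (fun ω => F.md (cv (vp w) kap q) (frm σ (a w) s t) ω 0) ω,
          (Fam.pt F ω, F.blb w (cv (vp w) kap q) (frm σ (a w) s t) ω)))) := by
  intro S a₁ R i₀ act hst hA hmono q₁ q₂ ca η hq1 hq12 hq2 hca hη hG B C
  have hl2 : 0 < Real.log 2 := Real.log_pos (by norm_num)
  have hpos : ∀ (τ : ℝ) (J : ℕ) (F : Fam 3 J) (A : F.Ω → Prop), S.St τ J F A → 0 < Pe F.p A :=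
    fun τ J F A hA => lt_of_lt_of_le (Real.exp_pos _) (hst τ J F A hA).2.2.2
  by_cases hS : S.Ne
  swap
  · unfold PCl.Ne at hS
    push Not at hS
    obtain ⟨τ, hτ, J₀, hS⟩ := hS
    exact Clp.of hτ J₀ fun J hJ F A hA => absurd hA (hS J hJ F A)
  have hlip := fun q q' h0 h1 h2 => actN_lip hS hpos hA q q' h0 h1 h2
  have h1 := act_int hpos hA hmono hlip (h := η * Real.log 2 / 8) (by positivity)
  obtain ⟨J₁, hJ₁⟩ := exists_nat_gt ((Real.log 13 + visC (B + 3) (C + 3)) /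
    (η * Real.log 2 / 8))
  have hp8 : 0 < η * Real.log 2 / 8 := by positivity
  have hlaw : Clp S (fun _ F A => 0 < Pe F.p A) :=
    Clp.of one_pos 0 fun J _ F A hA => hpos 1 J F A hA
  refine Clp.mono (J₂ := max J₁ 1) (hlaw.and h1) ?_
  rintro J hJ F A ⟨hPA, hg⟩ σ wl wa wb vp kap Hu HN al nu k b a s t hF hσ w q r X' hw1 hw2 hqa hqb
    hR qa qc m hqaq hqc hm
  have hl := isLaw_cond F.isLaw hPA
  have hJ1 : J₁ ≤ J := (le_max_left _ _).trans hJ
  have hJ2 : 1 ≤ J := (le_max_right _ _).trans hJ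
  have hJ0 : (0 : ℝ) < J := by exact_mod_cast hJ2
  have hJq : (0 : ℚ) < J := by exact_mod_cast hJ2
  have hK : Real.log 13 + visC (B + 3) (C + 3) ≤ η * Real.log 2 / 8 * J := by
    have h2 : (Real.log 13 + visC (B + 3) (C + 3)) / (η * Real.log 2 / 8) < J :=
      hJ₁.trans_le (by exact_mod_cast hJ1)
    rw [div_lt_iff₀ hp8] at h2
    linarith
  have hpA : ∀ ω, 0 < Pool.Agent.H49.Ent.cond F.p A True ω → A ω := fun ω hω =>
    of_eq_true ((cond_pos_iff F.isLaw.nonneg A True ω).1 hω).2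
  -- the levels
  have hvm : vp w ≤ vp wb := hF.mono w wb hw1 hw2 le_rfl
  have r1 : vp wb + q ≤ Hu := by
    have := hR.u
    rw [add_zero] at this
    exact_mod_cast this
  have r2 : kap + q ≤ HN := by
    have := hR.n
    rw [add_zero] at this
    exact_mod_cast this
  have r3 : wb + vp wb + q ≤ J := by
    have := hR.uJ
    rw [add_zero] at this
    exact_mod_cast this
  have r4 : wb + kap + q ≤ J := by
    have := hR.nJ
    rw [add_zero] at this
    exact_mod_cast this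
  have hvis := hF.ctx_vis (w := w) (q := q) hw1 hw2 (by omega) (by omega) (by omega) (by omega)
    hl hpA
  have hX : ((q + r : ℕ) : ℝ) + X' ≤ J := by
    have : q₂ * J ≤ 1 * J := mul_le_mul_of_nonneg_right hq2 hJ0.le
    linarith
  have hXn : q + r + X' ≤ J := by exact_mod_cast hX
  have k1 := act_pq hl hg hXn
  have e0 : cv (vp w) kap q 0 = q := rfl
  have k2 := CH_md_geZ hl σ (a w) s t (cv (vp w) kap q) r X'
    (F.blb w (cv (vp w) kap q) (frm σ (a w) s t)) (fun ω => (s ω, t ω)) hvis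
  rw [e0] at k2
  have k0 := mi_sub hl.nonneg (σ 0) (fun ω => (s ω, t ω)) (hqaq.trans (Nat.le_add_right q r))
    (Nat.le_add_right (q + r) X') hqc
  rw [hσ] at k2 k0 hm
  have k3 := hG (((q + r : ℕ) : ℚ) / J) (((q + r + X' : ℕ) : ℚ) / J) (by
      push_cast
      rw [le_div_iff₀ hJ0]
      have : (0 : ℝ) ≤ r := Nat.cast_nonneg r
      linarith) (by
      refine div_le_div_of_nonneg_right ?_ hJq.le
      push_cast
      linarith [Nat.cast_nonneg (α := ℚ) X']) (by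
      push_cast
      rw [div_le_iff₀ hJ0]
      push_cast at hqb
      exact hqb)
  have e1 : ((((q + r + X' : ℕ) : ℚ) / J : ℚ) : ℝ) - ((((q + r : ℕ) : ℚ) / J : ℚ) : ℝ) =
      X' / J := by
    push_cast
    ring
  rw [e1] at k3
  have hlJ : 0 < Real.log 2 * J := by positivity
  have k4 := mul_le_mul_of_nonneg_right k3 hlJ.le
  have e3 : (ca * (X' / J) - η / 16) * (Real.log 2 * J) =
      (ca * X' - η / 16 * J) * Real.log 2 := by
    field_simp
  rw [e3] at k4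
  have e4 : (act (((q + r + X' : ℕ) : ℚ) / J) - act (((q + r : ℕ) : ℚ) / J)) *
      (Real.log 2 * J) =
      (act (((q + r + X' : ℕ) : ℚ) / J) - act (((q + r : ℕ) : ℚ) / J)) * Real.log 2 * J := by
    ring
  rw [e4] at k4
  have hpj : 0 < η * Real.log 2 * J := by positivity
  have k5 : (ca * X' - η * J) * Real.log 2 ≤
      CH (Pool.Agent.H49.Ent.cond F.p A True) (fun ω => F.D (q + r + X') ω i₀)
        (fun ω => (F.D (q + r) ω i₀, Fam.pt F ω)) - (Real.log 13 + visC (B + 3) (C + 3)) := by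
    nlinarith
  have k6 : (ca * X' - η * J) * Real.log 2 - m ≤
      CH (Pool.Agent.H49.Ent.cond F.p A True) (fun ω => F.D (q + r + X') ω i₀)
        (fun ω => (F.D (q + r) ω i₀, Fam.pt F ω)) -
      Pool.KVA.MI (Pool.Agent.H49.Ent.cond F.p A True) (fun ω => F.D (q + r + X') ω i₀)
        (fun ω => (s ω, t ω)) (Pool.K2S.ptq F i₀ (q + r)) -
        (Real.log 13 + visC (B + 3) (C + 3)) := by
    linarith
  refine k6.trans (k2.trans (le_of_eq ?_))
  rfl

end Pool.S6B
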