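import Pool.Agent.H46.S6B.ZCls
import Pool.Agent.H45.S6B.Uep0

/-!
# The U-step for planes of directions which are not visible, `v = 0`
-/

set_option autoImplicit false

namespace Pool.S6B

/-- **(UEP)** for `v = 0`. -/
theorem uep_zero : UePStmt {0} := uep0_of uhz_thm

end Pool.S6B
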