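import Pool.Agent.H72.S6B.Stm2
import Pool.Agent.H95.S6.Rte
import Pool.Agent.H23.S6E.Vdf

/-!
# The blocks beyond the natural boxes have at most the rate `3 - c`
-/

set_option autoImplicit false

namespace Pool.S6B

open Finset Real
open Pool.Agent.H49.Ent Pool.Agent.H32.Dense Pool.STK Pool.KA Pool.KA.Win Pool.KA.TRC
  Pool.KSAT Pool.K2S Pool.K2S.Rows Pool.K2S.FF Pool.PB Pool.KS6 Pool.S6K.Wfe Pool.UST Pool.S6U
  Pool.S6C Pool.Sel51 Pool.KA.Vd

/-- **(UP)** from the deficits of the finer boxes and the rate of the positions. -/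
theorem up_of (hLD : LDOneStmt) : UpStmt := by
  intro S a R h₁ i₀ c s₂ r D σ hC act K W v₁ t e₁ Q₀ P g v₀ v ρ a₀ α hL ε hε
  obtain ⟨ε₀, X₁, hε₀, hX₁, h1⟩ := hLD S a R h₁ i₀ c s₂ r D σ hC act K W v₁ t e₁ Q₀ P g v₀ v ρ
    a₀ α hL (ε / 4) (by positivity)
  have hPR := hL.pr P hL.row
  obtain ⟨X₂, hX₂, h2⟩ := rte hC (P := P) (by linarith only [hPR, hPR.half]) hPR.lt1 hL.rate (ϖ := 1)
    (ε := ε / 4) one_pos (by positivity)
  refine ⟨ε₀, min X₁ X₂, hε₀, lt_min hX₁ hX₂, fun X hX hXX w hw => ?_⟩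
  obtain ⟨J₀, hJ₀⟩ := exists_nat_ge ((K1 8 + K2 8) / (ε / 4 * X))
  refine Clp.mono (J₂ := max J₀ 1) ((h1 X hX (hXX.trans (min_le_left _ _)) w hw).and
    ((h2 X hX (hXX.trans (min_le_right _ _))).and hC.pos)) ?_
  rintro J hJ F A ⟨g1, g2, hpA⟩ sg hsg h0 z hz a' s' t' E hdet hb hE hlE hcl r' U N Y q hq hqY
    e1 e2 e3 e4 e5 e6 e7
  have hJ0 : (0 : ℝ) < J := by
    have : 1 ≤ J := (le_max_right _ _).trans hJ
    exact_mod_cast this
  have hK : K1 8 + K2 8 ≤ ε / 4 * X * J := by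
    have h3 : (J₀ : ℝ) ≤ J := by exact_mod_cast (le_max_left _ _).trans hJ
    have h4 := hJ₀.trans h3
    rw [div_le_iff₀ (by positivity)] at h4
    linarith only [h4]
  have hl := isLaw_cond F.isLaw hpA
  have hpA' : ∀ ω, 0 < Pool.Agent.H49.Ent.cond F.p A True ω → A ω := fun ω hω =>
    of_eq_true ((cond_pos_iff F.isLaw.nonneg A True ω).1 hω).2
  have k1 := block_le (F := F) (p := Pool.Agent.H49.Ent.cond F.p A True) (σ := sg) (a := a')
    (s := s') (t := t') hl hsg (B := 8) (by norm_num) (Nat.le_add_right r' Y)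
    (Nat.le_add_right U Y) (Nat.le_add_right N Y) e4 e5 (by omega) (by omega)
    (fun ω hω => hb ω (hpA' ω hω)) F.W
  have k2 := g2 A (fun _ h => h) (by rw [one_mul]) N (N + Y) (Nat.le_add_right _ _) e6 e7
  have hYJ : (Y : ℝ) / J * J = Y := div_mul_cancel₀ _ hJ0.ne'
  have k3 := g1 sg hsg h0 z hz a' s' t' E hdet hb hE hlE hcl (r' + Y) (U + Y) (N + Y)
    (q + Y / J) hqY (by push_cast; nlinarith only [e1, hYJ]) (by push_cast; nlinarith only [e2, hYJ]) (by push_cast; nlinarith only [e3, hYJ])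
    (by omega) (by omega)
  push_cast at k1 k2
  have k4 : ((r' : ℝ) + Y - r' + ((U : ℝ) + Y - U) - 2 * ((N : ℝ) + Y - N)) * Real.log 2 = 0 := by
    ring
  have k5 : (3 - c) * ((N : ℝ) + Y - N) * Real.log 2 = (3 - c) * Y * Real.log 2 := by ring
  rw [k4] at k1
  rw [k5] at k2
  refine k1.trans ?_
  have k6 : 0 ≤ ε * X * J := by positivity
  linarith only [hK, k3, k2, k6]

end Pool.S6B
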