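import Pool.Agent.H46.S6B.Zs
import Pool.Agent.H46.S6B.ActZ
import Pool.Agent.H2.UST.Cls
import Pool.Agent.H98.S6B.H62P
import Pool.Agent.H36.S6.TmH
import Pool.Agent.H8.S6B.StrZ

/-!
# The U-step at `v = 0`: the hypotheses hold in a class
-/

set_option autoImplicit false

namespace Pool.S6B

open Finset Real
open Pool.Agent.H49.Ent Pool.Agent.H32.Dense Pool.STK Pool.KA Pool.KA.Win Pool.KA.TRC
  Pool.KSAT Pool.K2S Pool.K2S.Rows Pool.K2S.FF Pool.PB Pool.S6K.Wfe Pool.UST Pool.S6U Pool.S6C

/-- Powers of two. -/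
theorem pow_room {x y : ℕ} {c z : ℝ} (h : (x : ℝ) + z ≤ y) (hc : c ≤ (2 : ℝ) ^ z) :
    c * 2 ^ x ≤ 2 ^ y := by
  have h1 : (2 : ℝ) ^ ((x : ℝ) + z) ≤ (2 : ℝ) ^ (y : ℝ) :=
    Real.rpow_le_rpow_of_exponent_le (by norm_num) h
  rw [Real.rpow_add (by norm_num), Real.rpow_natCast, Real.rpow_natCast] at h1
  have h2 : c * (2 : ℝ) ^ x ≤ (2 : ℝ) ^ z * 2 ^ x :=
    mul_le_mul_of_nonneg_right hc (by positivity)
  linarith only [h1, h2]

theorem uhz_thm : UhZStmt := by
  intro x₁ η' ϖ δ ε₁ γ α d₀ hx₁ hx₁1 hη' hϖ hδ hε₁ hγ hα cw hcw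
  obtain ⟨κ₀, hκ₀⟩ : ∃ κ₀, κ₀ = min (1 / 16) (γ * cw / 16) := ⟨_, rfl⟩
  have hκ₀0 : 0 < κ₀ := by rw [hκ₀]; exact lt_min (by norm_num) (by positivity)
  refine ⟨κ₀, hκ₀0, fun κ hκ hκκ => ?_⟩
  have hκ1 : 16 * κ ≤ 1 := by
    have h1 : κ ≤ 1 / 16 := hκκ.trans (by rw [hκ₀]; exact min_le_left _ _)
    linarith only [h1]
  have hκ2 : 16 * κ ≤ γ * cw := by
    have h1 : κ ≤ γ * cw / 16 := hκκ.trans (by rw [hκ₀]; exact min_le_right _ _)
    linarith only [h1]
  obtain ⟨e₂, he₂⟩ : ∃ e₂, e₂ = min (x₁ * κ / 16) (γ * κ / 16) := ⟨_, rfl⟩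
  have he₂0 : 0 < e₂ := by rw [he₂]; exact lt_min (by positivity) (by positivity)
  have he₂1 : e₂ ≤ x₁ * κ / 16 := by rw [he₂]; exact min_le_left _ _
  have he₂2 : e₂ ≤ γ * κ / 16 := by rw [he₂]; exact min_le_right _ _
  obtain ⟨u, hu⟩ : ∃ u, u = Real.log 2 := ⟨_, rfl⟩
  have hu0 : 0 < u := by rw [hu]; exact Real.log_pos (by norm_num)
  have hu1 : u ≤ 1 := by
    rw [hu]
    have := Real.log_le_sub_one_of_pos (show (0 : ℝ) < 2 by norm_num)
    linarith only [this]
  obtain ⟨e₃, he₃⟩ : ∃ e₃, e₃ = ϖ * (α * η' * κ * u / 64) := ⟨_, rfl⟩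
  have he₃0 : 0 < e₃ := by rw [he₃]; positivity
  refine ⟨e₂, e₃, he₂0, he₃0, fun M hM S a₁ R i₀ rt act w₀ v₀ q₀ a₀ hUC => ?_⟩
  obtain ⟨hSt, hrt, hrt0, hact, hactm, hw0, hw1, hv1, hq0, hq1, hslr, hsla⟩ := hUC
  -- the size of the zone
  obtain ⟨cη, hcη⟩ : ∃ cη, cη = min (min (δ * κ / 4) (α * η' * κ / 32)) (1 / 4) := ⟨_, rfl⟩
  have hcη0 : 0 < cη := by
    rw [hcη]
    exact lt_min (lt_min (by positivity) (by positivity)) (by norm_num)
  have hcη1 : cη ≤ δ * κ / 4 := by
    rw [hcη]
    exact (min_le_left _ _).trans (min_le_left _ _)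
  exact by
   have hcη2 : cη ≤ α * η' * κ / 32 := by
     rw [hcη]
     exact (min_le_left _ _).trans (min_le_right _ _)
   have hcη3 : cη ≤ 1 / 4 := by rw [hcη]; exact min_le_right _ _
   obtain ⟨ca, hca⟩ : ∃ ca, ca = 3 * α / 4 := ⟨_, rfl⟩
   have hca0 : 0 < ca := by rw [hca]; positivity
   obtain ⟨e₅, he₅⟩ : ∃ e₅, e₅ = cη / 16 / (2 * (M + 2)) := ⟨_, rfl⟩
   have he₅0 : 0 < e₅ := by rw [he₅]; positivity
   have he₅m : 2 * (M + 2) * e₅ = cη / 16 := by
     rw [he₅]
     field_simp
   obtain ⟨δ₁, hδ₁, hs1⟩ := hslr (e₂ / 2) (by positivity)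
   obtain ⟨δ₂, hδ₂, hs2⟩ := hsla e₅ he₅0
   obtain ⟨L₀, hL₀⟩ : ∃ L₀, L₀ = min (min (min (δ₁ / 4) (δ₂ / (2 * (M + 2)))) (min (w₀ / 4)
     ((1 - w₀) / 4))) (min (min (q₀ / (2 * (M + 2))) ((1 - q₀) / (2 * (M + 2))))
       ((1 - v₀) / (8 * (1 + e₂)))) := ⟨_, rfl⟩
   have hL₀0 : 0 < L₀ := by
     rw [hL₀]
     have h1 : 0 < 1 - w₀ := by linarith only [hw1]
     have h2 : 0 < 1 - q₀ := by linarith only [hq1]
     have h3 : 0 < 1 - v₀ := by linarith only [hv1]
     exact lt_min (lt_min (lt_min (by positivity) (by positivity)) (lt_min (by positivity)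
       (by positivity))) (lt_min (lt_min (by positivity) (by positivity)) (by positivity))
   refine ⟨L₀, hL₀0, fun L B C hL hLL => ?_⟩
   rw [hL₀] at hLL
   have hMp : 0 < 2 * (M + 2) := by positivity
   obtain ⟨l12, l34⟩ := le_min_iff.1 hLL
   obtain ⟨l1, l2⟩ := le_min_iff.1 l12
   obtain ⟨l3, l4⟩ := le_min_iff.1 l34
   have f1 : 4 * L ≤ δ₁ := by
     have := (le_min_iff.1 l1).1
     linarith only [this]
   exact by
    have f2 : 2 * (M + 2) * L ≤ δ₂ := by
      have := (le_min_iff.1 l1).2
      rw [le_div_iff₀ hMp] at this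
      linarith only [this]
    have f3 : 4 * L ≤ w₀ := by
      have := (le_min_iff.1 l2).1
      linarith only [this]
    have f4 : 4 * L ≤ 1 - w₀ := by
      have := (le_min_iff.1 l2).2
      linarith only [this]
    have f5 : 2 * (M + 2) * L ≤ q₀ := by
      have := (le_min_iff.1 l3).1
      rw [le_div_iff₀ hMp] at this
      linarith only [this]
    have f6 : 2 * (M + 2) * L ≤ 1 - q₀ := by
      have := (le_min_iff.1 l3).2
      rw [le_div_iff₀ hMp] at this
      linarith only [this]
    have f7 : 8 * (1 + e₂) * L ≤ 1 - v₀ := by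
      rw [le_div_iff₀ (by positivity)] at l4
      linarith only [l4]
    have hML : 0 < M * L := by positivity
    -- the numbers
    obtain ⟨h, hh⟩ : ∃ h, h = x₁ * κ * L / 32 := ⟨_, rfl⟩
    have hh0 : 0 < h := by rw [hh]; positivity
    have hxκ : x₁ * κ ≤ 1 / 16 := by
      have : x₁ * κ ≤ 1 * κ := mul_le_mul_of_nonneg_right hx₁1 hκ.le
      linarith only [hκ1, this]
    have hhL : h ≤ L := by
      have h2 : x₁ * κ * L ≤ 1 / 16 * L := mul_le_mul_of_nonneg_right hxκ hL.le
      linarith only [hL, hh, h2]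
    exact by
     obtain ⟨η, hη⟩ : ∃ η, η = cη * L := ⟨_, rfl⟩
     have hη0 : 0 < η := by rw [hη]; positivity
     obtain ⟨w₁, hw₁, hw₁'⟩ := rat_btw (show w₀ - 2 * L < w₀ - L by linarith only [hL])
     obtain ⟨w₂, hw₂, hw₂'⟩ := rat_btw (show w₀ + 2 * L < w₀ + 3 * L by linarith only [hw₁, hw₁'])
     have hwg : ∀ wg : ℚ, w₁ ≤ wg → wg ≤ w₂ → |(wg : ℝ) - w₀| ≤ 3 * L := by
       intro wg g1 g2
       have g1' : (w₁ : ℝ) ≤ wg := by exact_mod_cast g1
       have g2' : (wg : ℝ) ≤ w₂ := by exact_mod_cast g2
       rw [abs_le]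
       constructor <;> linarith
     have hrtg : ∀ wg : ℚ, w₁ ≤ wg → wg ≤ w₂ → rt wg ≤ v₀ + 3 / 2 * e₂ * L := by
       intro wg g1 g2
       have g3 := hwg wg g1 g2
       have g4 := abs_le.1 (hs1 wg (lt_of_le_of_lt g3 (by linarith only [f1, hw₁, hw₁'])))
       have g5 : e₂ / 2 * |(wg : ℝ) - w₀| ≤ e₂ / 2 * (3 * L) :=
         mul_le_mul_of_nonneg_left g3 (by positivity)
       linarith only [g4, g5, g4.2]
     have hw₁0 : (0 : ℚ) ≤ w₁ := by
       have : (0 : ℝ) ≤ w₁ := by linarith only [f3, hw₁, hw₁']
       exact_mod_cast this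
     have hw₁₂ : w₁ < w₂ := by
       have : (w₁ : ℝ) < w₂ := by linarith only [hw₁, hw₁', hw₂]
       exact_mod_cast this
     have hw₂1 : w₂ ≤ 1 := by
       have : (w₂ : ℝ) ≤ 1 := by linarith only [f4, hw₁, hw₁', hw₂']
       exact_mod_cast this
     -- the claims
     have cP : Clp S (fun J F A => 0 < Pe F.p A) := Clp.of one_pos 0 fun J _ F A hS =>
       lt_of_lt_of_le (Real.exp_pos _) (hSt 1 J F A hS).2.2.2
     have cT := time_cls hSt (η := δ * κ * L / 2) (by positivity)
     exact by
      have cH := h62p S a₁ R i₀ rt hSt hrt w₁ w₂ h ε₁ hw₁0 hw₁₂ hw₂1 hh0 hε₁ (by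
        intro wg g1 g2
        refine ⟨hrt0 wg (hw₁0.trans g1) (g2.trans hw₂1), ?_⟩
        have g3 := hrtg wg g1 g2
        have g8 : 0 ≤ e₂ * L := by positivity
        linarith only [f7, hhL, hw₁, hw₁', g3, g8]) B C
      have hActG : ∀ x y e : ℝ, q₀ - M * L ≤ x → y ≤ q₀ + (M + 2) * L → 2 * (M + 2) * e₅ * L ≤ e →
          ActG act x y ca e := by
        intro x y e hx hy he q q' h1 h2 h3
        have h1' : x ≤ q := h1
        have h2' : (q : ℝ) ≤ q' := by exact_mod_cast h2
        have b1 : |(q : ℝ) - q₀| ≤ (M + 2) * L := by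
          rw [abs_le]
          constructor <;> linarith
        have b2 : |(q' : ℝ) - q₀| ≤ (M + 2) * L := by
          rw [abs_le]
          constructor <;> linarith
        have hML2 : (M + 2) * L < δ₂ := by
          have : 0 < (M + 2) * L := by positivity
          linarith only [f2, hML, hw₁, hw₁']
        have c1 := abs_le.1 (hs2 q (lt_of_le_of_lt b1 hML2))
        have c2 := abs_le.1 (hs2 q' (lt_of_le_of_lt b2 hML2))
        have d1 := mul_le_mul_of_nonneg_left b1 he₅0.le
        have d2 := mul_le_mul_of_nonneg_left b2 he₅0.le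
        have d3 : 0 ≤ α * ((q' : ℝ) - q) := mul_nonneg hα.le (by linarith only [h2'])
        rw [hca]
        linarith only [he, c1, c2, d1, d2, d3, c1.1, c1.2, c2.1, c2.2]
      have cA := (actz S a₁ R i₀ act hSt hact hactm (q₀ - M * L) (q₀ + (M + 1) * L) ca η (by linarith only [f5, hML, hw₁, hw₁'])
        (by linarith only [hML, hw₁, hw₁']) (by linarith only [f6, hML, hw₁, hw₁']) hca0 hη0 (hActG _ _ _ le_rfl (by linarith only [hw₁, hw₁']) (by
          rw [hη, he₅m]
          exact le_of_eq (by ring))) B C).ev hϖ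
      -- large resolutions
      exact by
       obtain ⟨J₀, hJ₀⟩ := exists_nat_ge ((d₀ : ℝ) * 2 / (κ * L) +
         u / (ϖ * (α * η' * κ * L * u / 64)) + 4 * (|B| + 4) / (L * u) + 1)
       refine Clp.mono (J₂ := J₀) (cP.and ((cT.and cH).and cA)) ?_
       rintro J hJ F A ⟨hA0, ⟨gT, gH⟩, gA⟩ σ wl wa wb vp kap Hu HN al nu kN nN a s t hU hσ qa qb d D
         hN hfri
       have hJ0 : (J₀ : ℝ) ≤ J := by exact_mod_cast hJ
       have hJ1 := hJ₀.trans hJ0
       have hB1 := hU.B1
       have hB4 : 0 < |B| + 4 := by positivity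
       have j1 : 0 ≤ (d₀ : ℝ) * 2 / (κ * L) := by positivity
       have j2 : 0 ≤ u / (ϖ * (α * η' * κ * L * u / 64)) := by positivity
       have j0 : 0 ≤ 4 * (|B| + 4) / (L * u) := by positivity
       have hJp : (0 : ℝ) < J := by linarith only [he₂0, he₂1, hxκ, hJ₀, hJ0, j1, j2, j0]
       have j3 : (d₀ : ℝ) * 2 ≤ κ * L * J := by
         have : (d₀ : ℝ) * 2 / (κ * L) ≤ J := by linarith only [he₂0, he₂1, hxκ, hJ₀, hJ0, j2, j0]
         rw [div_le_iff₀ (by positivity)] at this
         linarith only [this]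
       have j4 : u ≤ ϖ * (α * η' * κ * L * u / 64) * J := by
         have : u / (ϖ * (α * η' * κ * L * u / 64)) ≤ J := by linarith only [he₂0, he₂1, hxκ, hJ₀, hJ0, j1, j0]
         rw [div_le_iff₀ (by positivity)] at this
         linarith only [this]
       have j5 : 4 * (|B| + 4) ≤ L * u * J := by
         have : 4 * (|B| + 4) / (L * u) ≤ J := by linarith only [he₂0, he₂1, hxκ, hJ₀, hJ0, j1, j2]
         rw [div_le_iff₀ (by positivity)] at this
         linarith only [this]
       have hLJ : 0 < L * J := by positivity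
       -- a power of two
       have hpw : B + 4 ≤ (2 : ℝ) ^ (L * J / 4) := by
         have e1 : (2 : ℝ) ^ (L * J / 4) = Real.exp (u * (L * J / 4)) := by
           rw [hu, Real.rpow_def_of_pos (by norm_num)]
         rw [e1]
         have h1 := Real.add_one_le_exp (u * (L * J / 4))
         have h2 := le_abs_self B
         have h3 : u * (L * J / 4) = L * u * J / 4 := by ring
         rw [h3] at h1 ⊢
         linarith only [he₂0, he₂1, hxκ, j5, h1, h2]
       exact by
        have hd1 := hN.d1
        have hd2 := hN.d2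
        have hdd : d₀ ≤ d := by
          have : (d₀ : ℝ) ≤ d := by linarith only [j3, hd1]
          exact_mod_cast this
        -- the block
        have hX1 : κ * (L * J) / 2 ≤ (d : ℝ) := by linarith only [hd1]
        have hX2 : (d : ℝ) ≤ κ * (L * J) := by linarith only [hd2]
        have hX3 : (d : ℝ) ≤ L * J / 16 := by
          refine hX2.trans ?_
          have := mul_le_mul_of_nonneg_right (show κ ≤ 1 / 16 by linarith only [hκ1]) hLJ.le
          linarith only [this]
        have hX00 : (0 : ℝ) ≤ d := Nat.cast_nonneg _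
        have hxX1 : x₁ * κ * (L * J) / 2 ≤ x₁ * d := by
          have := mul_le_mul_of_nonneg_left hX1 hx₁.le
          linarith only [this]
        have hxX2 : x₁ * (d : ℝ) ≤ d := by
          have := mul_le_mul_of_nonneg_right hx₁1 hX00
          linarith only [this]
        -- windows
        have hwab : wa ≤ wb := by
          have : (wa : ℝ) ≤ wb := by
            have := hN.ww
            have h1 : 0 ≤ cw * L * J := by positivity
            linarith only [this, h1]
          exact_mod_cast this
        have hvm : ∀ w, wa ≤ w → w ≤ wb → (vp w : ℝ) ≤ vp wb := fun w g1 g2 => by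
          exact_mod_cast hU.mono w wb g1 g2 le_rfl
        have hDv : (vp wb : ℝ) + d ≤ D := by
          have := hN.D1
          push_cast at this
          linarith only [this]
        exact by
         have hDv' : vp wb + d ≤ D := by exact_mod_cast hDv
         have hwX : wb + d ≤ J := by
           have h1 : (wb : ℝ) + d ≤ J := by
             have g1 := hN.wb1
             have g2 : (w₀ + L) * (J : ℝ) + L * J / 4 ≤ J := by
               have : (w₀ + L + L / 4) * (J : ℝ) ≤ 1 * J :=
                 mul_le_mul_of_nonneg_right (by linarith only [f4, hw₁, hw₁']) hJp.le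
               linarith only [this]
             linarith only [hLJ, hX3, g1, g2]
           exact_mod_cast h1
         have hγ1 : (d : ℝ) ≤ γ * (wb + 1 - wa : ℕ) := by
           have h5 : cw * L * J ≤ (wb + 1 - wa : ℕ) := by
             have g1 := hN.ww
             have g2 : ((wb + 1 - wa : ℕ) : ℝ) = (wb : ℝ) + 1 - wa := by
               rw [Nat.cast_sub (by omega)]
               push_cast
               ring
             rw [g2]
             linarith only [he₂0, he₂1, hxκ, g1]
           have h6 : γ * (cw * L * J) ≤ γ * (wb + 1 - wa : ℕ) := mul_le_mul_of_nonneg_left h5 hγ.le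
           have h7 := mul_le_mul_of_nonneg_right hκ2 hLJ.le
           have h8 : 0 ≤ γ * (cw * L * J) := by positivity
           linarith only [j3, hd2, h6, h7]
         have hvv : (vp wb : ℝ) ≤ vp wa + γ * d := by
           have m1 := abs_le.1 (hN.lin wa le_rfl hwab)
           have m2 := abs_le.1 (hN.lin wb hwab le_rfl)
           have m4 : e₂ * L * J ≤ γ * κ * (L * J) / 16 := by
             have := mul_le_mul_of_nonneg_right he₂2 hLJ.le
             linarith only [this]
           have m5 : γ * κ * (L * J) / 2 ≤ γ * d := by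
             have := mul_le_mul_of_nonneg_left hX1 hγ.le
             linarith only [this]
           have m6 : 0 ≤ γ * κ * (L * J) := by positivity
           linarith only [m1, m2, m4, m5, m1.1, m2.2]
         exact by
          have hlw := hU.lw
          have hwbJ := hU.wJ
          have hroom := hN.room
          have r1 := hroom.u
          have r2 := hroom.n
          have r3 := hroom.uJ
          have r4 := hroom.nJ
          have hpA : ∀ ω, 0 < Pool.Agent.H49.Ent.cond F.p A True ω → A ω := fun ω hω =>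
            of_eq_true ((cond_pos_iff F.isLaw.nonneg A True ω).1 hω).2
          have hlA := isLaw_cond F.isLaw hA0
          -- events
          have hev : ∀ E : F.Ω → Prop, ϖ ≤ Pe (Pool.Agent.H49.Ent.cond F.p A True) E →
              Pool.Agent.H49.Ent.cond (Pool.Agent.H49.Ent.cond F.p A True) E True =
                Pool.Agent.H49.Ent.cond F.p (fun ω => A ω ∧ E ω) True ∧
              Sub (fun ω => A ω ∧ E ω) A ∧ ϖ * Pe F.p A ≤ Pe F.p (fun ω => A ω ∧ E ω) := by
            intro E hE
            refine ⟨cond_and' F.p hA0.ne', fun ω hω => hω.1, ?_⟩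
            rw [Pe_cond, le_div_iff₀ hA0] at hE
            exact hE
          refine ⟨hA0, hdd, hwX, hγ1, hvv, hDv', ?_, ?_, ?_, ?_⟩
          · -- time
            have h1 := tmw_of_tm hlA (show wa ≤ J by omega) gT
            refine le_trans ?_ h1
            have h3 := mul_le_mul_of_nonneg_left hX1 hδ.le
            linarith only [h3]
          · -- slopes
            intro w g1 g2
            have hwJ1 := hN.wa1
            have hwJ2 := hN.wb1
            have g1' : (wa : ℝ) ≤ w := by exact_mod_cast g1
            have g2' : (w : ℝ) ≤ wb := by exact_mod_cast g2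
            have hq0' : (0 : ℝ) ≤ qb := Nat.cast_nonneg _
            refine gH σ wl wa wb vp kap Hu HN al nu kN nN a s t hU hσ w D _ (slam F w) (x₁ * d)
              g1 g2 (fun _ _ _ _ e => e) ?_ ?_ ?_ ?_
            · intro ω ω' _ _ hω hω' e
              have e1 := hU.slm w g1 g2 ω ω' hω hω' e
              have e2 : slam F wl ω = slam F wl ω' := by
                rw [slam_coarse F (w := wl) (w' := w) (by omega) (by omega) ω,
                  slam_coarse F (w := wl) (w' := w) (by omega) (by omega) ω', e]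
              have e3 := Prod.ext_iff.mp (hU.slp ω ω' hω hω' e2)
              exact ⟨e1, e3.1, e3.2⟩
            · have : (w₁ : ℝ) * J ≤ (w₀ - L) * J := mul_le_mul_of_nonneg_right (by linarith only [hw₁']) hJp.le
              linarith only [hwJ1, g1', this]
            · have h1 : ((w₀ + L) + h) * (J : ℝ) ≤ w₂ * J :=
                mul_le_mul_of_nonneg_right (by linarith only [hhL, hw₂]) hJp.le
              linarith only [hwJ2, g2', h1]
            · intro wg k1 k2 k3 k4
              have m1 := abs_le.1 (hN.lin w g1 g2)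
              have m2 := mul_le_mul_of_nonneg_right (hrtg wg k3 k4) hJp.le
              have m4 : e₂ * L * J ≤ x₁ * κ * (L * J) / 16 := by
                have := mul_le_mul_of_nonneg_right he₂1 hLJ.le
                linarith only [this]
              have m5 : 16 * (2 * (h * J)) = x₁ * κ * (L * J) := by
                rw [hh]
                ring
              have m6 : rt wg * J + 2 * h * J ≤ vp w + x₁ * d := by
                have hh1 : 0 ≤ x₁ * κ * (L * J) := by positivity
                linarith only [hxX1, m1, m2, m4, m5, m1.1]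
              have m7 := hvm w g1 g2
              have m8 := hN.hh
              refine ⟨m6, by linarith only [hxX1, hxX2, hDv, m1, m2, m4, m5, m7], by linarith only [hLJ, hX3, hxX1, hxX2, m1, m2, m4, m5, m7, m8], by linarith only [hLJ, hX3, hxX1, hxX2, r1, m1, m2, m4, m5, m7], by linarith only [hLJ, hX3, hxX1, hxX2, r2, m1, m2, m4, m5, m7, m8]⟩
          · -- activity
            intro w q r X' g1 g2 g3 g4 g5 g6 E hE
            obtain ⟨e1, e2, e3⟩ := hev E hE
            have hA'0 : 0 < Pe F.p (fun ω => A ω ∧ E ω) := lt_of_lt_of_le (by positivity) e3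
            rw [e1]
            have g3' : (qa : ℝ) ≤ q := by exact_mod_cast g3
            have g4' : (q : ℝ) ≤ qb := by exact_mod_cast g4.le
            have g6' : (r : ℝ) + X' ≤ d := by exact_mod_cast g6
            have hqr : ((q + r : ℕ) : ℝ) + X' ≤ (q₀ + (M + 1) * L) * J := by
              have := hN.qb1
              have e4 : (q₀ + (M + 1) * L) * (J : ℝ) = (q₀ + M * L) * J + L * J := by ring
              push_cast
              linarith only [hLJ, hX3, g4', g6', this]
            have hm : Pool.KVA.MI (Pool.Agent.H49.Ent.cond F.p (fun ω => A ω ∧ E ω) True)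
                (fun ω => F.D (qb + d) ω (σ 0)) (fun ω => (s ω, t ω)) (Pool.K2S.ptq F (σ 0) qa) ≤
                (e₃ * L * J + u) / ϖ := by
              rw [← e1, le_div_iff₀ hϖ]
              have k1 := mi_ev hlA (σ 0) (fun ω => (s ω, t ω)) E qa (qb + d)
              have k2 : 0 ≤ Pool.KVA.MI (Pool.Agent.H49.Ent.cond
                  (Pool.Agent.H49.Ent.cond F.p A True) E True)
                  (fun ω => F.D (qb + d) ω (σ 0)) (fun ω => (s ω, t ω)) (Pool.K2S.ptq F (σ 0) qa) := by
                rw [MI_eq_dl (cond_nonneg hlA.nonneg E True)]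
                exact dl_nonneg (cond_nonneg hlA.nonneg E True) _ _ _
              have k3 := mul_le_mul_of_nonneg_right hE k2
              have k4 : Pool.KVA.MI (Pool.Agent.H49.Ent.cond F.p A True)
                  (fun ω => F.D (qb + d) ω (σ 0)) (fun ω => (s ω, t ω)) (Pool.K2S.ptq F (σ 0) qa) ≤
                  e₃ * L * J := hfri
              rw [hu]
              linarith only [k1, k3, k4]
            have k1 := gA _ e2 e3 σ wl wa wb vp kap Hu HN al nu _ _ a s t ((hU.sub e2).toP) hσ w q r X'
              g1 g2 (hN.qa1.trans g3') hqr ⟨by linarith only [hLJ, r1, g4'], by linarith only [hLJ, r2, g4'], by linarith only [hLJ, r3, g4'], by linarith only [hLJ, r4, g4']⟩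
              qa (qb + d) _ g3 (by omega) hm
            refine le_trans ?_ k1
            rw [← hu]
            -- the numbers
            have a1 : η' * (κ * (L * J) / 2) ≤ X' := (mul_le_mul_of_nonneg_left hX1 hη'.le).trans g5
            have a2 : α * (η' * (κ * (L * J) / 2)) ≤ α * X' := mul_le_mul_of_nonneg_left a1 hα.le
            have a3 : η * J ≤ α * η' * κ / 32 * (L * J) := by
              rw [hη]
              have := mul_le_mul_of_nonneg_right hcη2 hLJ.le
              linarith only [this]
            have a4 : η * J * u ≤ α * η' * κ / 32 * (L * J) * u := mul_le_mul_of_nonneg_right a3 hu0.le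
            have a5 : (e₃ * L * J + u) / ϖ ≤ α * η' * κ / 32 * (L * J) * u := by
              rw [div_le_iff₀ hϖ, he₃]
              have e4 : ϖ * (α * η' * κ * L * u / 64) * J = ϖ * (α * η' * κ * u / 64) * L * J := by ring
              rw [e4] at j4
              have e5 : α * η' * κ / 32 * (L * J) * u * ϖ =
                ϖ * (α * η' * κ * u / 64) * L * J + ϖ * (α * η' * κ * u / 64) * L * J := by ring
              rw [e5]
              linarith only [j4]
            have a6 : α * (η' * (κ * (L * J) / 2)) * u ≤ α * X' * u :=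
              mul_le_mul_of_nonneg_right a2 hu0.le
            have e6 : (ca * X' - η * J) * u = α / 2 * X' * u + α / 4 * X' * u - η * J * u := by
              rw [hca]; ring
            have e7 : α * (η' * (κ * (L * J) / 2)) * u = 16 * (α * η' * κ / 32 * (L * J) * u) := by ring
            rw [e6]
            rw [e7] at a6
            have a7 : 0 ≤ α * η' * κ / 32 * (L * J) * u := by positivity
            linarith only [a4, a5, a6, a7]
          · -- structure
            intro w q g1 g2 g3 g4
            have g2' : (w : ℝ) ≤ wb := by exact_mod_cast g2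
            have g4' : (q : ℝ) ≤ qb := by exact_mod_cast g4.le
            have g7 := hvm w g1 g2
            refine hU.toP.str hpA g1 g2 ?_ ?_ ?_
            · have : (vp w : ℝ) + d ≤ D := by linarith only [hDv, g7]
              exact_mod_cast this
            · refine pow_room (z := L * J / 4) ?_ hpw
              push_cast
              linarith only [hLJ, hX3, r1, g4', g7]
            · refine pow_room (z := L * J / 4) ?_ hpw
              push_cast
              linarith only [hLJ, hX3, r3, g2', g4', g7]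

end Pool.S6B
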